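import Pool.Agent.H18.GZ.Targets3

/-!
Row ADF of the board gz_modules: the operators are adjoint.
-/

set_option autoImplicit false

namespace Pool.Agent.H88.GZ

open MeasureTheory Pool.Agent.H34.GM Pool.Agent.H34.GZ

/-- sums of dominated terms are integrable -/
theorem gen {Ω ι : Type} [MeasurableSpace Ω] (μ : Measure Ω) [Countable ι] (t : ι → Ω → ℂ)
    (P : ι → Ω → ENNReal) (c : ENNReal) (hc : c ≠ ⊤)
    (hmeas : ∀ i, AEStronglyMeasurable (t i) μ)
    (hle : ∀ᵐ ω ∂μ, ∀ i, ‖t i ω‖ₑ ≤ c * P i ω)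
    (hPm : AEMeasurable (fun ω => ∑' i, P i ω) μ) (hfin : ∫⁻ ω, ∑' i, P i ω ∂μ ≠ ⊤) :
    Integrable (fun ω => ∑' i, t i ω) μ ∧ ∀ᵐ ω ∂μ, Summable fun i => ‖t i ω‖ := by
  have hae : ∀ᵐ ω ∂μ, ∑' i, P i ω < ⊤ := ae_lt_top' hPm hfin
  have hsle : ∀ᵐ ω ∂μ, ∑' i, ‖t i ω‖ₑ ≤ c * ∑' i, P i ω := by
    filter_upwards [hle] with ω h
    rw [← ENNReal.tsum_mul_left]
    exact ENNReal.tsum_le_tsum h
  have hsum : ∀ᵐ ω ∂μ, Summable fun i => ‖t i ω‖ := by
    filter_upwards [hsle, hae] with ω h1 h2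
    exact tsum_enorm_ne_top_iff_summable_norm.mp
      (ne_top_of_le_ne_top (ENNReal.mul_ne_top hc h2.ne) h1)
  refine ⟨⟨?_, ?_⟩, hsum⟩
  · refine aestronglyMeasurable_of_tendsto_ae (Filter.atTop : Filter (Finset ι))
      (f := fun A ω => ∑ i ∈ A, t i ω) ?_ ?_
    · intro A
      exact Finset.aestronglyMeasurable_fun_sum A fun i _ => hmeas i
    · filter_upwards [hsum] with ω h
      exact (Summable.of_norm h).hasSum
  · have h1 : ∫⁻ ω, ‖∑' i, t i ω‖ₑ ∂μ ≤ c * ∫⁻ ω, ∑' i, P i ω ∂μ := by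
      rw [← lintegral_const_mul' _ _ hc]
      refine lintegral_mono_ae ?_
      filter_upwards [hsle] with ω h
      exact enorm_tsum_le_tsum_enorm.trans h
    exact lt_of_le_of_lt h1 (ENNReal.mul_lt_top hc.lt_top hfin.lt_top)

open Classical in
/-- the majorant of one term -/
noncomputable def Pt {m : ℕ} (N : ℕ) (r : ℝ) (α : ZM m) (z w : Mat m) : ENNReal :=
  if α.det = 0 then 0 else ENNReal.ofReal ((1 + sz (kk r z (cR α) w)) ^ (-(N : ℝ)))

/-- the hypotheses on the data -/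
structure Hyp (m q : ℕ) [NeZero q] (D : Set (V m)) (Ψ : Mat m → ℂ) (N : ℕ) (M r : ℝ)
    (c : ENNReal) : Prop where
  one_le : 1 ≤ m
  two_le : 2 ≤ q
  meas : MeasurableSet D
  det : ∀ z ∈ D, (mt z).det ≠ 0
  fin : hm m D < ⊤
  cont : Continuous Ψ
  M0 : 0 ≤ M
  dec : ∀ z, ‖Ψ z‖ ≤ M * (1 + sz z) ^ (-(N : ℝ))
  ct : c ≠ ⊤
  bd : ∀ g : Mat m, g.det ≠ 0 → ∫⁻ z in D, ∑' α : ZM m, Pt N r α (mt z) g ∂(hm m) ≤ c
  alz : T_ALZ
  msr : T_MSR

/-- bounded functions supported on the units -/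
structure Fn {m q : ℕ} [NeZero q] (B : ℝ) (u : Mat m → RM m q → ℂ) : Prop where
  B0 : 0 ≤ B
  bd : ∀ g x, g.det ≠ 0 → ‖u g x‖ ≤ B
  cont : ∀ x, ContinuousOn (fun g => u g x) {g | g.det ≠ 0}
  supp : ∀ g x, ¬ IsUnit x → u g x = 0

section

variable {m q : ℕ} [NeZero q] {D : Set (V m)} {Ψ : Mat m → ℂ} {N : ℕ} {M r : ℝ} {c : ENNReal}
  {B B' : ℝ} {u v : Mat m → RM m q → ℂ}

theorem Hyp.unit_det (h : Hyp m q D Ψ N M r c) {α : ZM m} (hα : IsUnit (cQ q α)) :
    α.det ≠ 0 := by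
  intro h0
  have h1 := ((h.alz m q h.one_le h.two_le).2.2.2.1 α).1 hα
  rw [h0, Int.natAbs_zero, Nat.coprime_zero_left] at h1
  have := h.two_le
  omega

theorem Fn.aesm (h : Hyp m q D Ψ N M r c) (hu : Fn B u) (x : RM m q) :
    AEStronglyMeasurable (fun z : V m => u (mt z) x) ((hm m).restrict D) := by
  have h1 : Continuous (fun z : V m => mt z) := continuous_id
  have h2 : ContinuousOn (fun z : V m => u (mt z) x) D :=
    (hu.cont x).comp h1.continuousOn fun z hz => h.det z hz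
  exact h2.aestronglyMeasurable h.meas

theorem sz_nonneg (z : Mat m) : 0 ≤ sz z := norm_nonneg _

theorem Hyp.psi_le (h : Hyp m q D Ψ N M r c) (α : ZM m) (hα : α.det ≠ 0) (z w : Mat m) :
    ‖Ψ (kk r z (cR α) w)‖ₑ ≤ ENNReal.ofReal M * Pt N r α z w := by
  unfold Pt
  rw [if_neg hα, ← ENNReal.ofReal_mul h.M0, ← ofReal_norm]
  exact ENNReal.ofReal_le_ofReal (h.dec _)

theorem Hyp.meas_psi (h : Hyp m q D Ψ N M r c) (α : ZM m) :
    Measurable (fun p : V m × V m => Ψ (kk r (mt p.1) (cR α) (mt p.2))) := by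
  obtain ⟨-, -, -, -, -, -, hkkm, hΦm⟩ := h.msr.1 m
  exact (hΦm Ψ h.cont).comp (hkkm r (cR α))

theorem Hyp.meas_P (h : Hyp m q D Ψ N M r c) (α : ZM m) :
    Measurable (fun p : V m × V m => Pt N r α (mt p.1) (mt p.2)) := by
  obtain ⟨-, -, -, hszm, -, -, hkkm, -⟩ := h.msr.1 m
  unfold Pt
  split_ifs with h0
  · exact measurable_const
  · have h1 : Measurable (fun p : V m × V m => sz (kk r (mt p.1) (cR α) (mt p.2))) :=
      hszm.comp (hkkm r (cR α))
    exact ((measurable_const.add h1).pow_const _).ennreal_ofReal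

instance : Countable (ZM m) := inferInstanceAs (Countable (Fin m → Fin m → ℤ))

theorem mt_eta (g : Mat m) : mt (fun i j => g i j : V m) = g := rfl

theorem sec (g : V m) : Measurable (fun z : V m => (z, g)) :=
  measurable_id.prodMk measurable_const

theorem Hyp.meas_psi1 (h : Hyp m q D Ψ N M r c) (α : ZM m) (g : Mat m) :
    Measurable (fun z : V m => Ψ (kk r (mt z) (cR α) g)) := by
  have h1 := (h.meas_psi α).comp (sec (fun i j => g i j : V m))
  rw [Function.comp_def] at h1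
  dsimp only at h1
  rw [mt_eta] at h1
  exact h1

theorem Hyp.meas_P1 (h : Hyp m q D Ψ N M r c) (α : ZM m) (g : Mat m) :
    Measurable (fun z : V m => Pt N r α (mt z) g) := by
  have h1 := (h.meas_P α).comp (sec (fun i j => g i j : V m))
  rw [Function.comp_def] at h1
  dsimp only at h1
  rw [mt_eta] at h1
  exact h1

/-- the first clause -/
theorem Hyp.int1 (h : Hyp m q D Ψ N M r c) (hu : Fn B u) (g : Mat m) (hg : g.det ≠ 0)
    (x : RM m q) :
    IntegrableOn (fun z : V m => ∑' α : ZM m, Ψ (kk r (mt z) (cR α) g) *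
      u (mt z) (cQ q α * x)) D (hm m) := by
  have hmul := (h.alz m q h.one_le h.two_le).2.2.2.2.2.1
  refine (gen ((hm m).restrict D) (fun (α : ZM m) (z : V m) => Ψ (kk r (mt z) (cR α) g) *
      u (mt z) (cQ q α * x)) (fun α z => Pt N r α (mt z) g) (ENNReal.ofReal (M * B))
      ENNReal.ofReal_ne_top ?_ ?_ ?_ ?_).1
  · intro α
    exact (h.meas_psi1 α g).aestronglyMeasurable.mul (hu.aesm h _)
  · filter_upwards [ae_restrict_mem h.meas] with z hz α
    by_cases hun : IsUnit (cQ q α * x)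
    · have hα := h.unit_det ((hmul _ _).1 hun).1
      rw [enorm_mul]
      have h2 : ‖u (mt z) (cQ q α * x)‖ₑ ≤ ENNReal.ofReal B := by
        rw [← ofReal_norm]
        exact ENNReal.ofReal_le_ofReal (hu.bd _ _ (h.det z hz))
      calc ‖Ψ (kk r (mt z) (cR α) g)‖ₑ * ‖u (mt z) (cQ q α * x)‖ₑ
          ≤ (ENNReal.ofReal M * Pt N r α (mt z) g) * ENNReal.ofReal B :=
            mul_le_mul' (h.psi_le α hα _ _) h2
        _ = ENNReal.ofReal (M * B) * Pt N r α (mt z) g := by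
            rw [ENNReal.ofReal_mul h.M0]
            ring
    · rw [hu.supp _ _ hun, mul_zero, enorm_zero]
      exact zero_le
  · refine Measurable.aemeasurable ?_
    exact Measurable.tsum fun α => h.meas_P1 α g
  · exact ne_top_of_le_ne_top h.ct (h.bd g hg)

theorem sw (m : ℕ) : Measurable (fun p : V m × V m => (p.2, p.1)) :=
  measurable_snd.prodMk measurable_fst

open Classical in
/-- the kernel restricted to the units -/
noncomputable def Ab (q : ℕ) (Ψ : Mat m → ℂ) (r : ℝ) (β : ZM m) (z w : Mat m) : ℂ :=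
  if IsUnit (cQ q β) then Ψ (kk r z (cR β) w) else 0

omit [NeZero q] in
theorem Ab_mul (f : ZM m → ℂ) (z w : Mat m) [DecidablePred fun β : ZM m => IsUnit (cQ q β)] :
    (∑' β : ZM m, if IsUnit (cQ q β) then Ψ (kk r z (cR β) w) * f β else 0) =
      ∑' β : ZM m, Ab q Ψ r β z w * f β := by
  refine tsum_congr fun β => ?_
  unfold Ab
  by_cases hβ : IsUnit (cQ q β)
  · rw [if_pos hβ, if_pos hβ]
  · rw [if_neg hβ, if_neg hβ, zero_mul]

theorem Hyp.Ab_le (h : Hyp m q D Ψ N M r c) (β : ZM m) (z w : Mat m) :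
    ‖Ab q Ψ r β z w‖ₑ ≤ ENNReal.ofReal M * Pt N r β z w := by
  unfold Ab
  by_cases hβ : IsUnit (cQ q β)
  · rw [if_pos hβ]
    exact h.psi_le β (h.unit_det hβ) z w
  · rw [if_neg hβ, enorm_zero]
    exact zero_le

theorem Hyp.meas_Ab (h : Hyp m q D Ψ N M r c) (β : ZM m) :
    Measurable (fun p : V m × V m => Ab q Ψ r β (mt p.2) (mt p.1)) := by
  unfold Ab
  by_cases hβ : IsUnit (cQ q β)
  · simp only [if_pos hβ]
    have h1 := (h.meas_psi β).comp (sw m)
    rw [Function.comp_def] at h1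
    dsimp only at h1
    exact h1
  · simp only [if_neg hβ]
    exact measurable_const

theorem Hyp.meas_P2 (h : Hyp m q D Ψ N M r c) :
    Measurable (fun p : V m × V m => ∑' α : ZM m, Pt N r α (mt p.2) (mt p.1)) := by
  refine Measurable.tsum fun α => ?_
  have h1 := (h.meas_P α).comp (sw m)
  rw [Function.comp_def] at h1
  dsimp only at h1
  exact h1

theorem Hyp.fin2 (h : Hyp m q D Ψ N M r c) :
    ∫⁻ p : V m × V m, ∑' α : ZM m, Pt N r α (mt p.2) (mt p.1)
      ∂(((hm m).restrict D).prod ((hm m).restrict D)) ≠ ⊤ := by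
  obtain ⟨-, -, -, -, hsig, -, -, -⟩ := h.msr.1 m
  have := hsig
  rw [lintegral_prod _ h.meas_P2.aemeasurable]
  have h2 : ∫⁻ w in D, ∫⁻ z in D, ∑' α : ZM m, Pt N r α (mt z) (mt w) ∂(hm m) ∂(hm m) ≤
      ∫⁻ _ in D, c ∂(hm m) :=
    setLIntegral_mono' h.meas fun w hw => h.bd (mt w) (h.det w hw)
  refine ne_top_of_le_ne_top ?_ h2
  rw [setLIntegral_const]
  exact ENNReal.mul_ne_top h.ct h.fin.ne

/-- the kernel is summable almost everywhere -/
theorem Hyp.sum2 (h : Hyp m q D Ψ N M r c) :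
    ∀ᵐ p : V m × V m ∂(((hm m).restrict D).prod ((hm m).restrict D)),
      Summable fun β : ZM m => ‖Ab q Ψ r β (mt p.2) (mt p.1)‖ := by
  refine (gen _ (fun (β : ZM m) (p : V m × V m) => Ab q Ψ r β (mt p.2) (mt p.1))
    (fun α p => Pt N r α (mt p.2) (mt p.1)) (ENNReal.ofReal M) ENNReal.ofReal_ne_top
    ?_ ?_ h.meas_P2.aemeasurable h.fin2).2
  · intro β
    exact (h.meas_Ab β).aestronglyMeasurable
  · exact Filter.Eventually.of_forall fun p β => h.Ab_le β _ _

theorem Hyp.aeD (h : Hyp m q D Ψ N M r c) :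
    ∀ᵐ p : V m × V m ∂(((hm m).restrict D).prod ((hm m).restrict D)), p.1 ∈ D ∧ p.2 ∈ D := by
  obtain ⟨-, -, -, -, hsig, -, -, -⟩ := h.msr.1 m
  have := hsig
  have h1 : ∀ᵐ p ∂(((hm m).restrict D).prod ((hm m).restrict D)), p.1 ∈ D :=
    Measure.quasiMeasurePreserving_fst.ae (ae_restrict_mem h.meas)
  have h2 : ∀ᵐ p ∂(((hm m).restrict D).prod ((hm m).restrict D)), p.2 ∈ D :=
    Measure.quasiMeasurePreserving_snd.ae (ae_restrict_mem h.meas)
  exact h1.and h2

/-- the terms of the double integral -/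
theorem Hyp.int2 (h : Hyp m q D Ψ N M r c) (hu : Fn B u) (hv : Fn B' v) (x : RM m q) :
    Integrable (fun p : V m × V m => ∑' β : ZM m, Ab q Ψ r β (mt p.2) (mt p.1) *
      (u (mt p.1) (Ring.inverse (cQ q β) * x) * (starRingEnd ℂ) (v (mt p.2) x)))
      (((hm m).restrict D).prod ((hm m).restrict D)) := by
  obtain ⟨-, -, -, -, hsig, -, -, -⟩ := h.msr.1 m
  have := hsig
  refine (gen _ (fun (β : ZM m) (p : V m × V m) => Ab q Ψ r β (mt p.2) (mt p.1) *
      (u (mt p.1) (Ring.inverse (cQ q β) * x) * (starRingEnd ℂ) (v (mt p.2) x)))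
    (fun α p => Pt N r α (mt p.2) (mt p.1)) (ENNReal.ofReal (M * (B * B')))
    ENNReal.ofReal_ne_top ?_ ?_ h.meas_P2.aemeasurable h.fin2).1
  · intro β
    refine (h.meas_Ab β).aestronglyMeasurable.mul (AEStronglyMeasurable.mul ?_ ?_)
    · exact (hu.aesm h _).comp_fst
    · have h1 : AEStronglyMeasurable (fun p : V m × V m => v (mt p.2) x)
          (((hm m).restrict D).prod ((hm m).restrict D)) := (hv.aesm h x).comp_snd
      exact Complex.continuous_conj.comp_aestronglyMeasurable h1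
  · filter_upwards [h.aeD] with p hp β
    rw [enorm_mul]
    have h2 : ‖u (mt p.1) (Ring.inverse (cQ q β) * x) * (starRingEnd ℂ) (v (mt p.2) x)‖ₑ ≤
        ENNReal.ofReal (B * B') := by
      rw [← ofReal_norm, norm_mul, RCLike.norm_conj]
      exact ENNReal.ofReal_le_ofReal (mul_le_mul (hu.bd _ _ (h.det _ hp.1))
        (hv.bd _ _ (h.det _ hp.2)) (norm_nonneg _) hu.B0)
    calc ‖Ab q Ψ r β (mt p.2) (mt p.1)‖ₑ *
          ‖u (mt p.1) (Ring.inverse (cQ q β) * x) * (starRingEnd ℂ) (v (mt p.2) x)‖ₑ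
        ≤ (ENNReal.ofReal M * Pt N r β (mt p.2) (mt p.1)) * ENNReal.ofReal (B * B') :=
          mul_le_mul' (h.Ab_le β _ _) h2
      _ = ENNReal.ofReal (M * (B * B')) * Pt N r β (mt p.2) (mt p.1) := by
          rw [ENNReal.ofReal_mul h.M0]
          ring

/-- the pointwise identity -/
theorem Hyp.pointwise (h : Hyp m q D Ψ N M r c) (hu : Fn B u) (hv : Fn B' v) (z w : Mat m)
    (hz : z.det ≠ 0) (hw : w.det ≠ 0) (hs : Summable fun β : ZM m => ‖Ab q Ψ r β z w‖) :
    ∑ x, ∑' β : ZM m, Ab q Ψ r β z w *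
      (u w (Ring.inverse (cQ q β) * x) * (starRingEnd ℂ) (v z x)) =
    ∑ y, u w y * ∑' α : ZM m, Ψ (kk r z (cR α) w) * (starRingEnd ℂ) (v z (cQ q α * y)) := by
  obtain ⟨-, -, -, -, -, hmul, hinv⟩ := h.alz m q h.one_le h.two_le
  have hsa : ∀ x, Summable fun β : ZM m => Ab q Ψ r β z w *
      (u w (Ring.inverse (cQ q β) * x) * (starRingEnd ℂ) (v z x)) := by
    intro x
    refine Summable.of_norm_bounded (hs.mul_right (B * B')) fun β => ?_
    rw [norm_mul, norm_mul, RCLike.norm_conj]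
    exact mul_le_mul_of_nonneg_left (mul_le_mul (hu.bd _ _ hw) (hv.bd _ _ hz) (norm_nonneg _)
      hu.B0) (norm_nonneg _)
  have hsb : ∀ y, Summable fun β : ZM m => Ab q Ψ r β z w *
      (u w y * (starRingEnd ℂ) (v z (cQ q β * y))) := by
    intro y
    refine Summable.of_norm_bounded (hs.mul_right (B * B')) fun β => ?_
    rw [norm_mul, norm_mul, RCLike.norm_conj]
    exact mul_le_mul_of_nonneg_left (mul_le_mul (hu.bd _ _ hw) (hv.bd _ _ hz) (norm_nonneg _)
      hu.B0) (norm_nonneg _)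
  have e1 : ∀ y, u w y * ∑' α : ZM m, Ψ (kk r z (cR α) w) *
      (starRingEnd ℂ) (v z (cQ q α * y)) =
      ∑' β : ZM m, Ab q Ψ r β z w * (u w y * (starRingEnd ℂ) (v z (cQ q β * y))) := by
    intro y
    rw [← tsum_mul_left]
    refine tsum_congr fun β => ?_
    unfold Ab
    by_cases hβ : IsUnit (cQ q β)
    · rw [if_pos hβ]
      ring
    · have hβy : ¬ IsUnit (cQ q β * y) := fun hc => hβ ((hmul _ _).1 hc).1
      rw [if_neg hβ, hv.supp _ _ hβy]
      simp
  rw [← Summable.tsum_finsetSum fun x _ => hsa x, Finset.sum_congr rfl fun y _ => e1 y,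
    ← Summable.tsum_finsetSum fun y _ => hsb y]
  refine tsum_congr fun β => ?_
  rw [← Finset.mul_sum, ← Finset.mul_sum]
  by_cases hβ : IsUnit (cQ q β)
  · congr 1
    obtain ⟨i1, i2, -⟩ := hinv _ hβ
    refine Finset.sum_bij' (fun x _ => Ring.inverse (cQ q β) * x) (fun y _ => cQ q β * y)
      (fun _ _ => Finset.mem_univ _) (fun _ _ => Finset.mem_univ _) ?_ ?_ ?_
    · intro x _
      rw [← mul_assoc, i2, one_mul]
    · intro y _
      rw [← mul_assoc, i1, one_mul]
    · intro x _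
      rw [← mul_assoc, i2, one_mul]
  · have h0 : Ab q Ψ r β z w = 0 := by
      unfold Ab
      rw [if_neg hβ]
    rw [h0, zero_mul, zero_mul]

theorem Fn.conj (hv : Fn B' v) : Fn B' (fun g x => (starRingEnd ℂ) (v g x)) where
  B0 := hv.B0
  bd g x hg := by
    rw [RCLike.norm_conj]
    exact hv.bd g x hg
  cont x := Complex.continuous_conj.comp_continuousOn (hv.cont x)
  supp g x hx := by
    rw [hv.supp g x hx, map_zero]

/-- the second clause -/
theorem Hyp.adj (h : Hyp m q D Ψ N M r c) (hu : Fn B u) (hv : Fn B' v)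
    [DecidablePred fun β : ZM m => IsUnit (cQ q β)] :
    ∫ z in D, ∫ w in D, ∑ x, (∑' β : ZM m, if IsUnit (cQ q β) then
      Ψ (kk r (mt z) (cR β) (mt w)) * u (mt w) (Ring.inverse (cQ q β) * x) else 0) *
        (starRingEnd ℂ) (v (mt z) x) ∂(hm m) ∂(hm m) =
    ∫ w in D, ∑ y, u (mt w) y * (starRingEnd ℂ)
      (opAz q (fun a => (starRingEnd ℂ) (Ψ a)) r D v (mt w) y) ∂(hm m) := by
  obtain ⟨-, -, -, -, hsig, -, -, -⟩ := h.msr.1 m
  have := hsig
  have e1 : ∀ z w : V m, ∑ x, (∑' β : ZM m, if IsUnit (cQ q β) then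
      Ψ (kk r (mt z) (cR β) (mt w)) * u (mt w) (Ring.inverse (cQ q β) * x) else 0) *
        (starRingEnd ℂ) (v (mt z) x) = ∑ x, ∑' β : ZM m, Ab q Ψ r β (mt z) (mt w) *
      (u (mt w) (Ring.inverse (cQ q β) * x) * (starRingEnd ℂ) (v (mt z) x)) := by
    intro z w
    refine Finset.sum_congr rfl fun x _ => ?_
    rw [Ab_mul, ← tsum_mul_right]
    exact tsum_congr fun β => by ring
  simp only [e1]
  have hint : Integrable (fun p : V m × V m => ∑ x, ∑' β : ZM m,
      Ab q Ψ r β (mt p.2) (mt p.1) *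
      (u (mt p.1) (Ring.inverse (cQ q β) * x) * (starRingEnd ℂ) (v (mt p.2) x)))
      (((hm m).restrict D).prod ((hm m).restrict D)) :=
    integrable_finsetSum _ fun x _ => h.int2 hu hv x
  rw [integral_integral_swap (f := fun z w : V m => ∑ x, ∑' β : ZM m,
      Ab q Ψ r β (mt z) (mt w) *
      (u (mt w) (Ring.inverse (cQ q β) * x) * (starRingEnd ℂ) (v (mt z) x))) hint.swap]
  refine integral_congr_ae ?_
  have hae := Measure.ae_ae_of_ae_prod (h.sum2.and h.aeD)
  filter_upwards [hae, ae_restrict_mem h.meas] with w hw hwD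
  have e2 : ∫ z in D, ∑ x, ∑' β : ZM m, Ab q Ψ r β (mt z) (mt w) *
      (u (mt w) (Ring.inverse (cQ q β) * x) * (starRingEnd ℂ) (v (mt z) x)) ∂(hm m) =
      ∫ z in D, ∑ y, u (mt w) y * ∑' α : ZM m, Ψ (kk r (mt z) (cR α) (mt w)) *
        (starRingEnd ℂ) (v (mt z) (cQ q α * y)) ∂(hm m) := by
    refine integral_congr_ae ?_
    filter_upwards [hw] with z hz
    exact h.pointwise hu hv (mt z) (mt w) (h.det z hz.2.2) (h.det w hwD) hz.1
  rw [e2, integral_finsetSum _ fun y _ =>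
    (h.int1 hv.conj (mt w) (h.det w hwD) y).const_mul (u (mt w) y)]
  refine Finset.sum_congr rfl fun y _ => ?_
  rw [integral_const_mul]
  congr 1
  unfold opAz
  rw [← integral_conj]
  refine integral_congr_ae (Filter.Eventually.of_forall fun z => ?_)
  change _ = (starRingEnd ℂ) (∑' α : ZM m, (starRingEnd ℂ) (Ψ (kk r (mt z) (cR α) (mt w))) *
    v (mt z) (cQ q α * y))
  rw [Complex.conj_tsum]
  refine tsum_congr fun α => ?_
  rw [map_mul, Complex.conj_conj]

end

/-- **the operators are adjoint** -/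
theorem pf_ADF (hTNL : T_TNL) (hALZ : T_ALZ) (hMSR : T_MSR) : T_ADF := by
  intro m q _ hm1 hq D hD hfin Ψ hΨ u v B hB hc hs r hr
  obtain ⟨K, N, C, -, hC, hT⟩ := hTNL m hm1 0
  obtain ⟨M, hM, hMd⟩ := hΨ.dec N
  have hDdet : ∀ z ∈ D, (mt z).det ≠ 0 := by
    intro z hz h0
    have h1 := (hD.shell z hz).1
    unfold aN at h1
    rw [h0, abs_zero, Real.zero_rpow (by positivity)] at h1
    norm_num at h1
  have H : Hyp m q D Ψ N M r (ENNReal.ofReal (C * r ^ K)) := {
    one_le := hm1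
    two_le := hq
    meas := hD.meas
    det := hDdet
    fin := hfin
    cont := hΨ.cont
    M0 := hM
    dec := hMd
    ct := ENNReal.ofReal_ne_top
    bd := by
      intro g hg
      refine le_trans (le_of_eq ?_) (hT D hD r hr g hg)
      refine lintegral_congr fun z => tsum_congr fun α => ?_
      unfold Pt
      by_cases h0 : α.det = 0
      · simp only [if_pos h0]
      · simp only [if_neg h0]
    alz := hALZ
    msr := hMSR }
  have hu : Fn (max B 0) u := {
    B0 := le_max_right _ _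
    bd := fun g x hg => (hB g x hg).1.trans (le_max_left _ _)
    cont := fun x => (hc x).1
    supp := fun g x hx => (hs g x hx).1 }
  have hv : Fn (max B 0) v := {
    B0 := le_max_right _ _
    bd := fun g x hg => (hB g x hg).2.trans (le_max_left _ _)
    cont := fun x => (hc x).2
    supp := fun g x hx => (hs g x hx).2 }
  exact ⟨fun g x hg => H.int1 hu g hg x, H.adj hu hv⟩

end Pool.Agent.H88.GZ
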